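import Pool.Agent.W757.BL.Defs

/-!
# Stretched billiard tables: caustics near the boundary
-/

set_option autoImplicit false

open Set Filter Topology

namespace Pool.Agent.W64.BL

open Pool.Agent.H719R3.BG Pool.Agent.W757.BL

/-- a ray from an inner point meets the collar -/
theorem ray_meets {Ω U : Set ℂ} (hO : IsOpen Ω) (hC : Convex ℝ Ω) (hB : Bornology.IsBounded Ω)
    (hU : IsOpen U) (hF : frontier Ω ⊆ U) {z v : ℂ} (hz : z ∈ Ω) (hv : v ≠ 0) :
    ∃ s : ℝ, 0 < s ∧ z + s * v ∈ U ∩ Ω := by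
  have hcont : Continuous (fun s : ℝ => z + s * v) := by fun_prop
  obtain ⟨C, hCb⟩ := hB.exists_norm_le
  have hv' : 0 < ‖v‖ := norm_pos_iff.2 hv
  have hC0 : 0 ≤ C := (norm_nonneg z).trans (hCb z hz)
  have hpre : IsPreconnected ((fun s : ℝ => z + s * v) '' Ici 0) :=
    isPreconnected_Ici.image _ hcont.continuousOn
  have h1 : (((fun s : ℝ => z + s * v) '' Ici 0) ∩ Ω).Nonempty :=
    ⟨z, ⟨0, mem_Ici.2 le_rfl, by simp⟩, hz⟩
  have h2 : (((fun s : ℝ => z + s * v) '' Ici 0) ∩ Ωᶜ).Nonempty := by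
    refine ⟨z + ((C + ‖z‖ + 1) / ‖v‖ : ℝ) * v, ⟨(C + ‖z‖ + 1) / ‖v‖, ?_, rfl⟩, ?_⟩
    · exact mem_Ici.2 (by positivity)
    · intro hmem
      have h3 := hCb _ hmem
      have h4 : ‖(((C + ‖z‖ + 1) / ‖v‖ : ℝ) : ℂ) * v‖ = C + ‖z‖ + 1 := by
        rw [norm_mul, Complex.norm_real, Real.norm_eq_abs, abs_of_nonneg (by positivity)]
        field_simp
      have h5 : ‖(((C + ‖z‖ + 1) / ‖v‖ : ℝ) : ℂ) * v‖ ≤
          ‖z + (((C + ‖z‖ + 1) / ‖v‖ : ℝ) : ℂ) * v‖ + ‖z‖ := by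
        have := norm_sub_le (z + (((C + ‖z‖ + 1) / ‖v‖ : ℝ) : ℂ) * v) z
        rwa [add_sub_cancel_left] at this
      linarith
  have h3 : (((fun s : ℝ => z + s * v) '' Ici 0) ∩ frontier Ω).Nonempty := by
    by_contra hne
    rw [Set.not_nonempty_iff_eq_empty] at hne
    have hout : ∀ w ∈ (fun s : ℝ => z + s * v) '' Ici 0, w ∉ Ω → w ∈ (closure Ω)ᶜ := by
      intro w hw hwO hwc
      have : w ∈ ((fun s : ℝ => z + s * v) '' Ici 0) ∩ frontier Ω := by
        refine ⟨hw, ?_⟩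
        rw [hO.frontier_eq]
        exact ⟨hwc, hwO⟩
      rw [hne] at this
      exact this
    obtain ⟨w, hw, hwO⟩ := h2
    obtain ⟨w', hw', h5, h6⟩ := hpre Ω (closure Ω)ᶜ hO isClosed_closure.isOpen_compl
      (fun w hw => by
        by_cases h : w ∈ Ω
        · exact Or.inl h
        · exact Or.inr (hout w hw h)) h1 ⟨w, hw, hout w hw hwO⟩
    exact h6 (subset_closure h5)
  obtain ⟨P, ⟨s, hs, hsP⟩, hPF⟩ := h3
  have hs0 : 0 ≤ s := hs
  have hPU : P ∈ U := hF hPF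
  have hPcl : P ∈ closure Ω := frontier_subset_closure hPF
  have hzP : P ∉ Ω := fun h => by
    have := hO.inter_frontier_eq
    have h6 : P ∈ Ω ∩ frontier Ω := ⟨h, hPF⟩
    rw [this] at h6
    exact h6
  have hspos : 0 < s := by
    rcases hs0.lt_or_eq with h | h
    · exact h
    · exfalso
      apply hzP
      rw [← hsP, ← h]
      simpa using hz
  -- points before `P`
  have hev : ∀ᶠ t : ℝ in 𝓝[<] s, z + t * v ∈ U := by
    have h7 : ∀ᶠ t : ℝ in 𝓝 s, z + t * v ∈ U := by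
      apply hcont.continuousAt.eventually
      apply hU.mem_nhds
      simpa using (show z + s * v ∈ U from by rw [show z + (s : ℂ) * v = P from hsP]; exact hPU)
    exact h7.filter_mono nhdsWithin_le_nhds
  have hev2 : ∀ᶠ t : ℝ in 𝓝[<] s, 0 < t ∧ t < s :=
    Ioo_mem_nhdsLT hspos
  obtain ⟨t, ht1, ht2, ht3⟩ := (hev.and hev2).exists
  refine ⟨t, ht2, ht1, ?_⟩
  have hseg : openSegment ℝ z P ⊆ interior Ω :=
    hC.openSegment_interior_closure_subset_interior (by rwa [hO.interior_eq]) hPcl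
  have hmem : z + t * v ∈ openSegment ℝ z P := by
    refine ⟨1 - t / s, t / s, ?_, by positivity, by ring, ?_⟩
    · rw [sub_pos, div_lt_one hspos]
      exact ht3
    · rw [← hsP]
      simp only [Complex.real_smul]
      have hsc : (s : ℂ) ≠ 0 := by exact_mod_cast hspos.ne'
      push_cast
      field_simp
      ring
  exact interior_subset (hseg hmem)

/-- caustics near the boundary -/
theorem t_NEAR : S_NEAR := by
  intro Ω 𝒦 U hT hK
  have hcl : ∀ K ∈ 𝒦, IsClosed K := fun K hk => (hK.caustic K hk).1.isClosed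
  -- nested part
  have hnest : ∀ K ∈ 𝒦, ∀ K' ∈ 𝒦, K ⊆ K' → K ≠ K' → K ⊆ interior K' := by
    intro K hk K' hk' hsub hne p hp
    by_contra hpi
    have h1 : p ∈ frontier K' := by
      rw [(hcl K' hk').frontier_eq]
      exact ⟨hsub hp, hpi⟩
    have h2 : p ∉ frontier K := fun h =>
      Set.disjoint_left.1 (hK.nest K hk K' hk' hne).1 h h1
    have h3 : p ∈ interior K := by
      by_contra h4
      apply h2
      rw [(hcl K hk).frontier_eq]
      exact ⟨hp, h4⟩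
    exact hpi (interior_mono hsub h3)
  -- a frontier point
  have hfr : (frontier Ω).Nonempty := by
    by_contra h
    rw [Set.not_nonempty_iff_eq_empty] at h
    have h1 : IsClopen Ω := isClopen_iff_frontier_eq_empty.2 h
    rcases isClopen_iff.1 h1 with h2 | h2
    · exact hT.nonempty.ne_empty h2
    · have h3 := hT.bounded
      rw [h2] at h3
      exact NormedSpace.unbounded_univ ℝ ℂ h3
  obtain ⟨P, hP⟩ := hfr
  have hPO : P ∉ Ω := fun h => by
    have := hT.isOpen.inter_frontier_eq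
    have h6 : P ∈ Ω ∩ frontier Ω := ⟨h, hP⟩
    rw [this] at h6
    exact h6
  -- bigger members
  have hbig : ∀ K : Set ℂ, IsClosed K → K ⊆ Ω → ∃ K₂ ∈ 𝒦, ∃ w ∈ K₂, w ∉ K := by
    intro K hKc hKO
    have h1 : IsOpen (U ∩ Kᶜ) := hK.isOpen.inter hKc.isOpen_compl
    have h2 : P ∈ U ∩ Kᶜ := ⟨hK.front hP, fun h => hPO (hKO h)⟩
    obtain ⟨w, ⟨hwU, hwK⟩, hwO⟩ := mem_closure_iff.1 (frontier_subset_closure hP) _ h1 h2
    have h3 : w ∈ ⋃ K ∈ 𝒦, frontier K := by rw [← hK.fill]; exact ⟨hwU, hwO⟩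
    obtain ⟨K₂, hK₂, hw⟩ := mem_iUnion₂.1 h3
    exact ⟨K₂, hK₂, w, (hcl K₂ hK₂).frontier_subset hw, hwK⟩
  have hbig2 : ∀ K ∈ 𝒦, ∃ K₂ ∈ 𝒦, K ⊆ interior K₂ := by
    intro K hk
    obtain ⟨K₂, hK₂, w, hw, hwK⟩ := hbig K (hcl K hk) (hK.caustic K hk).2.2.2.1
    have hne : K ≠ K₂ := fun h => hwK (by rw [h]; exact hw)
    rcases (hK.nest K hk K₂ hK₂ hne).2 with h | h
    · exact ⟨K₂, hK₂, hnest K hk K₂ hK₂ h hne⟩
    · exact absurd (h hw) hwK
  have htot : ∀ K ∈ 𝒦, ∀ K' ∈ 𝒦, K ⊆ K' ∨ K' ⊆ K := by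
    intro K hk K' hk'
    by_cases h : K = K'
    · exact Or.inl h.subset
    · exact (hK.nest K hk K' hk' h).2
  -- every point is covered
  have hcov : ∀ z ∈ Ω, ∃ K ∈ 𝒦, z ∈ interior K := by
    intro z hz
    obtain ⟨s, hs, hsU⟩ := ray_meets hT.isOpen hT.convex hT.bounded hK.isOpen hK.front hz
      (one_ne_zero : (1 : ℂ) ≠ 0)
    obtain ⟨t, ht, htU⟩ := ray_meets hT.isOpen hT.convex hT.bounded hK.isOpen hK.front hz
      (neg_ne_zero.2 one_ne_zero : (-1 : ℂ) ≠ 0)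
    rw [hK.fill] at hsU htU
    obtain ⟨K₁, hK₁, h1⟩ := mem_iUnion₂.1 hsU
    obtain ⟨K₂, hK₂, h2⟩ := mem_iUnion₂.1 htU
    have h1' := (hcl K₁ hK₁).frontier_subset h1
    have h2' := (hcl K₂ hK₂).frontier_subset h2
    have key : ∃ K ∈ 𝒦, z + (s : ℂ) * 1 ∈ K ∧ z + (t : ℂ) * (-1) ∈ K := by
      rcases htot K₁ hK₁ K₂ hK₂ with h | h
      · exact ⟨K₂, hK₂, h h1', h2'⟩
      · exact ⟨K₁, hK₁, h1', h h2'⟩
    obtain ⟨K, hk, ha, hb⟩ := key
    have hzK : z ∈ K := by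
      have h3 := (hK.caustic K hk).2.1 ha hb (show 0 ≤ t / (s + t) by positivity)
        (show 0 ≤ s / (s + t) by positivity) (by field_simp; ring)
      have h4 : (t / (s + t)) • (z + (s : ℂ) * 1) + (s / (s + t)) • (z + (t : ℂ) * (-1)) = z := by
        simp only [Complex.real_smul]
        have hsc : (s : ℂ) + t ≠ 0 := by
          have : s + t ≠ 0 := by positivity
          exact_mod_cast this
        push_cast
        field_simp
        ring
      rwa [h4] at h3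
    obtain ⟨K₃, hK₃, h5⟩ := hbig2 K hk
    exact ⟨K₃, hK₃, h5 hzK⟩
  -- compactness
  have hCc : IsCompact (closure Ω \ U) := (hT.bounded.isCompact_closure).diff hK.isOpen
  have hCO : closure Ω \ U ⊆ Ω := by
    rintro z ⟨h1, h2⟩
    by_contra h3
    apply h2
    apply hK.front
    rw [hT.isOpen.frontier_eq]
    exact ⟨h1, h3⟩
  obtain ⟨K₀, hK₀, -⟩ := hbig ∅ isClosed_empty (empty_subset _)
  have : Nonempty 𝒦 := ⟨⟨K₀, hK₀⟩⟩
  obtain ⟨⟨K₁, hK₁⟩, h⟩ := hCc.elim_directed_cover (fun K : 𝒦 => interior (K : Set ℂ))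
    (fun K => isOpen_interior) (fun z hz => by
      obtain ⟨K, hk, h1⟩ := hcov z (hCO hz)
      exact mem_iUnion.2 ⟨⟨K, hk⟩, h1⟩) (by
      intro A B
      rcases htot A A.2 B B.2 with h | h
      · exact ⟨B, interior_mono h, subset_rfl⟩
      · exact ⟨A, subset_rfl, interior_mono h⟩)
  refine ⟨K₁, hK₁, ?_, hnest⟩
  rintro z ⟨hz1, hz2⟩
  by_contra hzU
  exact hz2 (interior_subset (h ⟨subset_closure hz1, hzU⟩))

end Pool.Agent.W64.BL
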